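import Pool.Agent.TH879.KK.Thr

set_option autoImplicit false

/-!
# The second Kahn-Kalai conjecture for graphs of density at least `loglog n`

The loss in the bound of the threshold `pc` for containing `H` by the expectation threshold `pE` is
`min(Δ(H), log n) ^ min(1, θ)` with `θ = log (1 / pE) / log n`. As `θ ≤ v(F) / e(F)` for every
subgraph `F` of `H`, the loss is bounded as soon as `H` has a subgraph `F` with
`e(F) ≥ c v(F) loglog n`, for instance when the average degree of `H` is at least `2 c loglog n`.
-/

namespace Pool.Agent.Results.MP_974ae5_pr.DenseGraphs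

open Pool.Agent.TH965 Pool.Agent.TH879.KK

open scoped Classical in
/-- Upper bounds on the threshold for containing `H`; in particular the conjectured bound for all
graphs `H` that have a subgraph of density at least `c loglog n`. -/
theorem result (n m : ℕ) (hn : 2 ≤ n) (hmn : m ≤ n) (H : SimpleGraph (Fin m)) (hH : H ≠ ⊥)
    (pc : ℝ) (hpc1 : pc ≤ 1)
    (hpc : gnp n pc (fun G => H.IsContained G) = 1 / 2) :
    -- (1) the loss is `min(Δ, log n) ^ min(1, θ)`, `θ = log (1 / pE) / log n`
    (pc ≤ 100000 * pE n H
      * (min (H.maxDegree : ℝ) (Real.log n)) ^ (min 1 (Real.log (1 / pE n H) / Real.log n))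
      * Real.log (2 * H.edgeSet.ncard)) ∧
    -- (2) the same with `θ` replaced by `v(F) / e(F)` for any subgraph `F` with an edge
    (∀ F : H.Subgraph, 0 < F.edgeSet.ncard →
      pc ≤ 100000 * pE n H
        * (min (H.maxDegree : ℝ) (Real.log n)) ^ (min 1 ((F.verts.ncard : ℝ) / F.edgeSet.ncard))
        * Real.log (2 * H.edgeSet.ncard)) ∧
    -- (3) the conjectured bound if `v(F) loglog n ≤ A e(F)` for some subgraph `F` with an edge
    (∀ F : H.Subgraph, 0 < F.edgeSet.ncard → ∀ A : ℝ, 0 ≤ A →
      (F.verts.ncard : ℝ) * Real.log (Real.log n) ≤ A * F.edgeSet.ncard →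
      pc ≤ 66000 * Real.exp A * pE n H * Real.log (2 * H.edgeSet.ncard)) :=
  ⟨threshold_theta hn hmn H hH pc hpc1 hpc.le,
    fun F hF => threshold_density hn hmn H hH pc hpc1 hpc.le F hF,
    fun F hF A hA h => threshold_dense hn hmn H hH pc hpc1 hpc.le F hF A hA h⟩

end Pool.Agent.Results.MP_974ae5_pr.DenseGraphs
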