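import Pool.Agent.TH965.Emb3

set_option autoImplicit false
set_option linter.unusedSectionVars false

/-!
# Numerical estimate for the loss of a minimal likely set

`b ^ |Z|` is at most `8 ^ k * (b ^ θ) ^ k`, where `θ = log (1/ρ) / log n` and `k` is the number of edges
that touch `Z`.
-/

namespace Pool.Agent.TH879.KK

open Pool.Agent.TH965.Emb

lemma log_le_sqrt {L : ℝ} (hL : 1 ≤ L) : Real.log L ^ 2 ≤ L := by
  have hL0 : 0 < L := by linarith
  set s : ℝ := L ^ ((1 : ℝ) / 4) with hs
  have hs0 : 0 < s := by positivity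
  have hs4 : s ^ 4 = L := by
    rw [hs, ← Real.rpow_natCast, ← Real.rpow_mul hL0.le]
    norm_num
  have h1 : Real.log L = 4 * Real.log s := by
    rw [← hs4, Real.log_pow]; norm_num
  have h2 : Real.log s ≤ s - 1 := Real.log_le_sub_one_of_pos hs0
  have h0 : 0 ≤ Real.log L := Real.log_nonneg hL
  have h3 : Real.log L ≤ s ^ 2 := by
    rw [h1]; nlinarith [sq_nonneg (s - 2)]
  calc Real.log L ^ 2 ≤ (s ^ 2) ^ 2 := pow_le_pow_left₀ h0 h3 2
    _ = s ^ 4 := by ring
    _ = L := hs4

lemma log_le_half {L : ℝ} (hL : 1 ≤ L) : Real.log L ≤ L / 2 := by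
  have hL0 : 0 < L := by linarith
  set s : ℝ := Real.sqrt L with hs
  have hs0 : 0 < s := Real.sqrt_pos.mpr hL0
  have hs2 : s ^ 2 = L := Real.sq_sqrt hL0.le
  have h1 : Real.log L = 2 * Real.log s := by
    rw [← hs2, Real.log_pow]; norm_num
  have h2 : Real.log s ≤ s - 1 := Real.log_le_sub_one_of_pos hs0
  rw [h1]; nlinarith [sq_nonneg (s - 2)]

/-- Powers with few factors. -/
lemma pow_le_rpow_pow (b θ B : ℝ) (z k : ℕ) (hb1 : 1 ≤ b) (hz : (z : ℝ) ≤ θ * k)
    (hB : b ^ θ ≤ B) : b ^ z ≤ B ^ k := by
  have hb0 : 0 < b := by linarith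
  calc b ^ z = b ^ (z : ℝ) := (Real.rpow_natCast _ _).symm
    _ ≤ b ^ (θ * k) := Real.rpow_le_rpow_of_exponent_le hb1 hz
    _ = (b ^ θ) ^ k := by rw [Real.rpow_mul hb0.le, Real.rpow_natCast]
    _ ≤ B ^ k := pow_le_pow_left₀ (by positivity) hB k

/-- Final numerical estimate with the exponent `θ`. -/
lemma final_bound' (k z t : ℕ) (hk : 1 ≤ k) (hz : 1 ≤ z) (hzk : z ≤ k + 1)
    (hzt : 1 ≤ t → z ≤ k) (htk : t ≤ k)
    (L l D b B x M F : ℝ) (hL : 0 < L) (hD : 0 ≤ D)
    (hb1 : 1 ≤ b) (hb : min L D ≤ b) (hbL : b ≤ max 1 L)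
    (hB : b ^ (min 1 (l / L)) ≤ B) (hx : 0 < x)
    (hxk : 1 ≤ Real.exp 1 ^ k * x)
    (hxz : (z : ℝ) * L = Real.log x + k + k * l)
    (hunl : ((z : ℝ) - 1) * L ≤ k * l)
    (hM0 : 0 ≤ M) (hM : M ≤ max (Real.exp 2 * x) (t * L))
    (hMD : 1 ≤ t → M ≤ D)
    (hF : F ≤ z ^ 2 * M * b ^ (z - 1)) : F ≤ (192 * B) ^ k * x := by
  have hb0 : 0 < b := by linarith
  have hbB1 : 1 ≤ b ^ (min 1 (l / L)) ∨ l < 0 := by
    by_cases hl : l < 0
    · exact Or.inr hl
    · left
      apply Real.one_le_rpow hb1
      exact le_min (by norm_num) (div_nonneg (not_lt.mp hl) hL.le)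
  by_cases hθ : 1 ≤ l / L
  · -- the old bound suffices
    rw [min_eq_left hθ, Real.rpow_one] at hB
    have hold := final_bound k z t hk hz hzk hzt htk L D b x M F hL.le hD hb1 hb hx hxk hM0 hM hMD hF
    refine hold.trans ?_
    apply mul_le_mul_of_nonneg_right _ hx.le
    apply pow_le_pow_left₀ (by positivity)
    nlinarith
  push Not at hθ
  rw [min_eq_right hθ.le] at hB
  set θ : ℝ := l / L with hθdef
  have hθL : θ * L = l := by rw [hθdef]; field_simp
  have hbθ : 0 < b ^ θ := by positivity
  have hB0 : 0 < B := by linarith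
  have he2 := exp_two_lt_eight
  have he1 := exp_one_lt_three
  have hkp : (k : ℝ) ≤ 2 ^ k := by exact_mod_cast Nat.lt_two_pow_self.le
  have hk1 : (k : ℝ) + 1 ≤ 2 ^ k := by
    exact_mod_cast Nat.succ_le_of_lt (Nat.lt_two_pow_self (n := k))
  have h8k : (8 : ℝ) ≤ 8 ^ k := by
    calc (8 : ℝ) = 8 ^ 1 := (pow_one _).symm
      _ ≤ 8 ^ k := pow_le_pow_right₀ (by norm_num) hk
  -- the power of b
  have hz1 : ((z - 1 : ℕ) : ℝ) ≤ θ * k := by
    have h1 : ((z - 1 : ℕ) : ℝ) = (z : ℝ) - 1 := by
      rw [Nat.cast_sub hz]; simp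
    rw [h1]
    have h2 : ((z : ℝ) - 1) * L ≤ (θ * k) * L := by
      calc ((z : ℝ) - 1) * L ≤ k * l := hunl
        _ = (θ * k) * L := by rw [← hθL]; ring
    exact le_of_mul_le_mul_right h2 hL
  have hbz1 : b ^ (z - 1) ≤ B ^ k := pow_le_rpow_pow b θ B (z - 1) k hb1 hz1 hB
  have hz' : (z : ℝ) ≤ 2 ^ k := by
    have : (z : ℝ) ≤ k + 1 := by exact_mod_cast hzk
    linarith
  have hz2 : (z : ℝ) ^ 2 ≤ 4 ^ k := by
    calc (z : ℝ) ^ 2 ≤ (2 ^ k) ^ 2 := pow_le_pow_left₀ (by positivity) hz' 2
      _ = 4 ^ k := by rw [← pow_mul, mul_comm k 2, pow_mul]; norm_num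
  by_cases hMx : M ≤ Real.exp 2 * x
  · calc F ≤ z ^ 2 * M * b ^ (z - 1) := hF
      _ ≤ 4 ^ k * (8 ^ k * x) * B ^ k := by
          apply mul_le_mul _ hbz1 (by positivity) (by positivity)
          apply mul_le_mul hz2 _ hM0 (by positivity)
          refine hMx.trans ?_
          apply mul_le_mul_of_nonneg_right _ hx.le
          linarith
      _ = (32 * B) ^ k * x := by
          rw [mul_pow 32 B]
          have : (32 : ℝ) ^ k = 4 ^ k * 8 ^ k := by rw [← mul_pow]; norm_num
          rw [this]; ring
      _ ≤ (192 * B) ^ k * x := by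
          apply mul_le_mul_of_nonneg_right _ hx.le
          apply pow_le_pow_left₀ (by positivity)
          nlinarith
  push Not at hMx
  -- hard case
  have hMt : M ≤ t * L := by
    rcases le_max_iff.mp hM with h | h
    · linarith
    · exact h
  have ht : 1 ≤ t := by
    by_contra hcon
    have ht0 : t = 0 := by omega
    rw [ht0, Nat.cast_zero, zero_mul] at hMt
    have : 0 < Real.exp 2 * x := by positivity
    linarith
  have hMD' := hMD ht
  have ht1 : (1 : ℝ) ≤ t := by exact_mod_cast ht
  have htk' : (t : ℝ) ≤ k := by exact_mod_cast htk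
  have hk1' : (1 : ℝ) ≤ k := by exact_mod_cast hk
  have hMb : M ≤ k * b := by
    have h1 : M ≤ t * min L D := by
      rcases min_choice L D with h' | h'
      · rw [h']; exact hMt
      · rw [h']; nlinarith
    have h2 : (t : ℝ) * min L D ≤ k * b :=
      mul_le_mul htk' hb (le_min hL.le hD) (by positivity)
    linarith
  -- x is at most k L
  have hxkL : x ≤ k * L := by
    have h1 : x ≤ Real.exp 2 * x := by
      have : 1 ≤ Real.exp 2 := Real.one_le_exp (by norm_num)
      nlinarith
    have h2 : (t : ℝ) * L ≤ k * L := mul_le_mul_of_nonneg_right htk' hL.le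
    linarith
  have hxlow : 0 ≤ Real.log x + k := by
    have h1 := Real.log_nonneg hxk
    rw [Real.log_mul (by positivity) (by positivity), Real.log_pow, Real.log_exp] at h1
    linarith
  -- the full power of b
  have hbz : b ^ z ≤ 8 ^ k * B ^ k := by
    rcases le_or_gt b 1 with hble | hbgt
    · have hb1' : b = 1 := le_antisymm hble hb1
      have hB1 : 1 ≤ B := by
        rw [hb1', Real.one_rpow] at hB
        exact hB
      rw [hb1', one_pow]
      have h1 : (1 : ℝ) ≤ 8 ^ k := one_le_pow₀ (by norm_num)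
      have h2 : (1 : ℝ) ≤ B ^ k := one_le_pow₀ hB1
      nlinarith
    · have hLb : b ≤ L := by
        rcases le_max_iff.mp hbL with h | h
        · linarith
        · exact h
      have hL1 : 1 ≤ L := by linarith
      have hlb : 0 ≤ Real.log b := Real.log_nonneg hb1
      have hlbL : Real.log b ≤ Real.log L := Real.log_le_log hb0 hLb
      have hlL : 0 ≤ Real.log L := Real.log_nonneg hL1
      have hlx : Real.log x ≤ Real.log k + Real.log L := by
        rw [← Real.log_mul (by positivity) (by positivity)]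
        exact Real.log_le_log hx hxkL
      have hlk : Real.log k ≤ k := by
        have := Real.log_le_sub_one_of_pos (show (0 : ℝ) < k by linarith)
        linarith
      have hexp : (z : ℝ) * Real.log b ≤ θ * k * Real.log b + 2 * k := by
        have h1 : (z : ℝ) = θ * k + (Real.log x + k) / L := by
          have h2 : (z : ℝ) * L = (θ * k + (Real.log x + k) / L) * L := by
            rw [add_mul, div_mul_cancel₀ _ hL.ne', hxz, ← hθL]; ring
          exact mul_right_cancel₀ hL.ne' h2
        rw [h1, add_mul]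
        have h3 : (Real.log x + k) / L * Real.log b ≤ 2 * k := by
          calc (Real.log x + k) / L * Real.log b
              ≤ (Real.log x + k) / L * Real.log L := by
                apply mul_le_mul_of_nonneg_left hlbL (div_nonneg hxlow hL.le)
            _ ≤ (2 * k + Real.log L) / L * Real.log L := by
                apply mul_le_mul_of_nonneg_right _ hlL
                apply div_le_div_of_nonneg_right _ hL.le
                linarith
            _ = (2 * k * Real.log L + Real.log L ^ 2) / L := by ring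
            _ ≤ (2 * k * (L / 2) + L) / L := by
                apply div_le_div_of_nonneg_right _ hL.le
                have h4 := log_le_half hL1
                have h5 := log_le_sqrt hL1
                have h6 : 2 * (k : ℝ) * Real.log L ≤ 2 * k * (L / 2) := by
                  apply mul_le_mul_of_nonneg_left h4; positivity
                linarith
            _ = k + 1 := by field_simp
            _ ≤ 2 * k := by linarith
        linarith
      calc b ^ z = Real.exp ((z : ℝ) * Real.log b) := by
            rw [mul_comm, Real.exp_mul, Real.exp_log hb0, Real.rpow_natCast]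
        _ ≤ Real.exp (θ * k * Real.log b + 2 * k) := Real.exp_le_exp.mpr hexp
        _ = Real.exp 2 ^ k * (b ^ θ) ^ k := by
            rw [Real.exp_add, ← Real.exp_nat_mul, Real.rpow_def_of_pos hb0, ← Real.exp_nat_mul,
              mul_comm, mul_comm (2 : ℝ)]
            congr 2
            ring
        _ ≤ 8 ^ k * B ^ k := by
            apply mul_le_mul _ _ (by positivity) (by positivity)
            · exact pow_le_pow_left₀ (Real.exp_pos _).le he2.le k
            · exact pow_le_pow_left₀ hbθ.le hB k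
  have hx3 : 1 ≤ 3 ^ k * x :=
    hxk.trans (mul_le_mul_of_nonneg_right (pow_le_pow_left₀ (Real.exp_pos _).le he1.le k) hx.le)
  calc F ≤ z ^ 2 * M * b ^ (z - 1) := hF
    _ ≤ 4 ^ k * (k * b) * b ^ (z - 1) := by
        apply mul_le_mul_of_nonneg_right _ (by positivity)
        exact mul_le_mul hz2 hMb hM0 (by positivity)
    _ = 4 ^ k * (k * b ^ z) := by
        have : b ^ z = b * b ^ (z - 1) := by
          rw [← pow_succ']; congr 1; omega
        rw [this]; ring
    _ ≤ 4 ^ k * (2 ^ k * (8 ^ k * B ^ k)) := by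
        apply mul_le_mul_of_nonneg_left _ (by positivity)
        exact mul_le_mul hkp hbz (by positivity) (by positivity)
    _ = (64 * B) ^ k := by
        rw [← mul_pow, ← mul_pow, ← mul_pow]; congr 1; ring
    _ = (64 * B) ^ k * 1 := (mul_one _).symm
    _ ≤ (64 * B) ^ k * (3 ^ k * x) := mul_le_mul_of_nonneg_left hx3 (by positivity)
    _ = (192 * B) ^ k * x := by
        rw [← mul_assoc, ← mul_pow]; congr 2; ring

end Pool.Agent.TH879.KK
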