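import Pool.Agent.TH879.KK.Count
import Pool.Agent.TH965.Final

set_option autoImplicit false
set_option linter.unusedSectionVars false

/-!
# The threshold bound with the loss `min (Δ, log n) ^ θ`, `θ = log (1 / pE) / log n`
-/

namespace Pool.Agent.TH879.KK

open Finset
open scoped Classical
open Pool.Agent.TH965 Pool.Agent.TH965.Emb Pool.Agent.TH965.Copy Pool.Agent.TH965.Spread

/-- For `p` with all expected counts at least one, the copies of `H` are spread. -/
lemma spread_copies' {n m : ℕ} (hn : 2 ≤ n) (hmn : m ≤ n) (H : SimpleGraph (Fin m)) (p : ℝ)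
    (hp : 0 < p) (hp1 : p ≤ 1)
    (h : ∀ H' : H.Subgraph,
      1 ≤ (n.descFactorial H'.verts.ncard : ℝ) / (Nat.card (H'.coe ≃g H'.coe) : ℝ)
        * p ^ H'.edgeSet.ncard)
    (b B : ℝ) (hb1 : 1 ≤ b) (hb : min (Real.log n) (H.maxDegree : ℝ) ≤ b)
    (hbL : b ≤ max 1 (Real.log n))
    (hB : b ^ (min 1 (-Real.log p / Real.log n)) ≤ B)
    (T : Finset (Sym2 (Fin n))) :
    (Nat.card {σ : Equiv.Perm (Fin n) // T ⊆ cop hmn H σ} : ℝ)
      ≤ (192 * B * p * Real.exp 2) ^ T.card * Fintype.card (Equiv.Perm (Fin n)) := by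
  have hn0 : (0 : ℝ) < n := by exact_mod_cast (by omega : 0 < n)
  have hLpos : 0 < Real.log n := Real.log_pos (by exact_mod_cast (by omega : 1 < n))
  have hb0 : 0 < b := by linarith
  have hlogp : Real.log p ≤ 0 := Real.log_nonpos hp.le hp1
  have hB1 : 1 ≤ B := by
    refine le_trans ?_ hB
    apply Real.one_le_rpow hb1
    exact le_min (by norm_num) (div_nonneg (by linarith) hLpos.le)
  have hB0 : 0 < B := by linarith
  rw [Nat.card_eq_fintype_card, Fintype.card_subtype]
  by_cases hT : ∀ e ∈ T, ¬ e.IsDiag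
  swap
  · push Not at hT
    obtain ⟨e, he, hd⟩ := hT
    have : Finset.univ.filter (fun σ : Equiv.Perm (Fin n) => T ⊆ cop hmn H σ) = ∅ := by
      rw [Finset.eq_empty_iff_forall_notMem]
      intro σ hσ
      exact cop_notDiag hmn H σ e ((Finset.mem_filter.mp hσ).2 he) hd
    rw [this, Finset.card_empty, Nat.cast_zero]
    positivity
  apply card_through hmn H T
  have hVc : Fintype.card {x // x ∈ supp T} = (supp T).card := Fintype.card_coe _
  by_cases hpe : p ≤ Real.exp (-1)
  · have hρ : p = (p * Real.exp 1) * Real.exp (-1) := by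
      rw [mul_assoc, ← Real.exp_add]; simp
    have hBρ : b ^ (min 1 (-Real.log (p * Real.exp 1) / Real.log n)) ≤ B := by
      refine le_trans ?_ hB
      apply Real.rpow_le_rpow_of_exponent_le hb1
      apply min_le_min le_rfl
      apply div_le_div_of_nonneg_right _ hLpos.le
      rw [Real.log_mul hp.ne' (Real.exp_pos _).ne', Real.log_exp]
      linarith
    have := embF_card_le' H n hn (by rw [Fintype.card_fin]; exact hmn) (p * Real.exp 1)
      (by positivity) (by
        calc p * Real.exp 1 ≤ Real.exp (-1) * Real.exp 1 :=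
              mul_le_mul_of_nonneg_right hpe (Real.exp_pos _).le
          _ = 1 := by rw [← Real.exp_add]; simp)
      (by
        intro U hU
        rw [← hρ]
        exact autc_bound H p hp.le h U hU)
      b B hb1 hb hbL hBρ (supp T).card {x // x ∈ supp T} (gT T) hVc
    rw [← hρ, gT_edges T hT] at this
    exact this
  · push Not at hpe
    have h1 : ((embF (gT T) H).card : ℝ) ≤ (n : ℝ) ^ (supp T).card := by
      have h2 : (embF (gT T) H).card ≤ m ^ (supp T).card := by
        calc (embF (gT T) H).card ≤ Fintype.card ({x // x ∈ supp T} → Fin m) :=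
              Finset.card_le_univ _
          _ = m ^ (supp T).card := by
              rw [← Nat.card_eq_fintype_card, Nat.card_fun, Nat.card_eq_fintype_card,
                Nat.card_eq_fintype_card, Fintype.card_fin, hVc]
      have h3 : m ^ (supp T).card ≤ n ^ (supp T).card := Nat.pow_le_pow_left hmn _
      exact_mod_cast h2.trans h3
    have h4 : 1 ≤ 192 * B * p := by
      have h5 : Real.exp (-1) ≥ 1 / 3 := by
        rw [Real.exp_neg, ge_iff_le, one_div]
        apply inv_anti₀ (Real.exp_pos 1) exp_one_lt_three.le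
      nlinarith
    calc ((embF (gT T) H).card : ℝ) ≤ 1 * (n : ℝ) ^ (supp T).card := by rw [one_mul]; exact h1
      _ ≤ (192 * B * p) ^ T.card * (n : ℝ) ^ (supp T).card := by
          apply mul_le_mul_of_nonneg_right _ (by positivity)
          exact one_le_pow₀ h4

/-- The upper bound on the threshold, for each admissible `p`. -/
lemma threshold_le' {n m : ℕ} (hn : 2 ≤ n) (hmn : m ≤ n) (H : SimpleGraph (Fin m)) (p : ℝ)
    (hp : 0 < p) (hp1 : p ≤ 1)
    (h : ∀ H' : H.Subgraph,
      1 ≤ (n.descFactorial H'.verts.ncard : ℝ) / (Nat.card (H'.coe ≃g H'.coe) : ℝ)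
        * p ^ H'.edgeSet.ncard)
    (b B : ℝ) (hb1 : 1 ≤ b) (hb : min (Real.log n) (H.maxDegree : ℝ) ≤ b)
    (hbL : b ≤ max 1 (Real.log n))
    (hB : b ^ (min 1 (-Real.log p / Real.log n)) ≤ B)
    (pc : ℝ) (hpc1 : pc ≤ 1)
    (hpc : gnp n pc (fun G => H.IsContained G) ≤ 1 / 2) :
    pc ≤ (Nat.log 2 H.edgeSet.ncard + 1 : ℝ) * (32 * (192 * B * p * Real.exp 2)) := by
  by_contra hcon
  push Not at hcon
  have hb0 : 0 < b := by linarith
  have hB0 : 0 < B := lt_of_lt_of_le (by positivity) hB
  set p' : ℝ := (Nat.log 2 H.edgeSet.ncard + 1 : ℝ) * (32 * (192 * B * p * Real.exp 2)) with hp'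
  have hp'1 : p' ≤ 1 := (hcon.le).trans hpc1
  have hp'0 : 0 ≤ p' := by positivity
  have hsp := spread (eF (⊤ : SimpleGraph (Fin n))) (fun σ : Equiv.Perm (Fin n) => cop hmn H σ)
    (by
      intro σ e he
      have := cop_notDiag hmn H σ e he
      rw [mem_eF, SimpleGraph.edgeSet_top]
      exact this)
    H.edgeSet.ncard (fun σ => by rw [cop_card, eF_card]) (192 * B * p * Real.exp 2)
    (by positivity)
    (fun T => spread_copies' hn hmn H p hp hp1 h b B hb1 hb hbL hB T) p' le_rfl hp'1
  have h1 : 6 / 7 ≤ gnp n p' (fun G => H.IsContained G) := by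
    rw [gnp_eq_exs]
    refine hsp.trans ?_
    apply exs_mono _ hp'0 hp'1
    intro W _
    by_cases hex : ∃ σ, cop hmn H σ ⊆ W
    · obtain ⟨σ, hσ⟩ := hex
      rw [if_pos ⟨σ, hσ⟩, if_pos (isContained_of_cop hmn H σ W hσ)]
    · rw [if_neg hex]
      split_ifs <;> norm_num
  have h2 : gnp n p' (fun G => H.IsContained G) ≤ gnp n pc (fun G => H.IsContained G) := by
    apply gnp_mono n hp'0 hcon.le hpc1
    intro G G' hGG' hH
    exact hH.trans_le hGG'
  linarith

/-- The density of a subgraph bounds admissible `p` from below. -/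
lemma admissible_ge {n m : ℕ} (hn : 2 ≤ n) (H : SimpleGraph (Fin m)) (F : H.Subgraph)
    (hF : 0 < F.edgeSet.ncard) (p : ℝ) (hp : 0 < p)
    (h : ∀ H' : H.Subgraph,
      1 ≤ (n.descFactorial H'.verts.ncard : ℝ) / (Nat.card (H'.coe ≃g H'.coe) : ℝ)
        * p ^ H'.edgeSet.ncard) :
    Real.exp (-((F.verts.ncard : ℝ) / F.edgeSet.ncard * Real.log n)) ≤ p := by
  have hn0 : (0 : ℝ) < n := by exact_mod_cast (by omega : 0 < n)
  have hF' : (0 : ℝ) < F.edgeSet.ncard := by exact_mod_cast hF
  have hne : Nonempty (F.coe ≃g F.coe) := ⟨RelIso.refl _⟩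
  have hfin : Finite (F.coe ≃g F.coe) := by
    apply Finite.of_injective (fun f => f.toEquiv)
    intro f f' h
    exact RelIso.toEquiv_injective h
  have hA : (1 : ℝ) ≤ Nat.card (F.coe ≃g F.coe) := by exact_mod_cast Nat.card_pos
  have h1 : (1 : ℝ) ≤ (n : ℝ) ^ F.verts.ncard * p ^ F.edgeSet.ncard := by
    refine (h F).trans ?_
    apply mul_le_mul_of_nonneg_right _ (by positivity)
    refine (div_le_self (by positivity) hA).trans ?_
    exact_mod_cast Nat.descFactorial_le_pow n _
  have h2 := Real.log_nonneg h1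
  rw [Real.log_mul (by positivity) (by positivity), Real.log_pow, Real.log_pow] at h2
  rw [← Real.exp_log hp]
  apply Real.exp_le_exp.mpr
  rw [div_mul_eq_mul_div, ← neg_div, div_le_iff₀ hF']
  linarith

/-- The expectation threshold is positive and at least `n ^ (-v(F)/e(F))`. -/
lemma pE_ge {n m : ℕ} (hn : 2 ≤ n) (hmn : m ≤ n) (H : SimpleGraph (Fin m)) (hH : H ≠ ⊥)
    (F : H.Subgraph) (hF : 0 < F.edgeSet.ncard) :
    Real.exp (-((F.verts.ncard : ℝ) / F.edgeSet.ncard * Real.log n)) ≤ pE n H := by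
  unfold pE
  apply le_csInf (pE_set_nonempty hmn H)
  rintro p ⟨hp0, _, hp⟩
  exact admissible_ge hn H F hF p (pE_set_pos H hH p hp0 hp) hp

lemma top_edges {m : ℕ} (H : SimpleGraph (Fin m)) (hH : H ≠ ⊥) :
    0 < (⊤ : H.Subgraph).edgeSet.ncard := by
  rw [SimpleGraph.Subgraph.edgeSet_top]
  rw [Nat.pos_iff_ne_zero, Ne, Set.ncard_eq_zero]
  intro he
  exact hH (SimpleGraph.edgeSet_eq_empty.mp he)

lemma pE_pos {n m : ℕ} (hn : 2 ≤ n) (hmn : m ≤ n) (H : SimpleGraph (Fin m)) (hH : H ≠ ⊥) :
    0 < pE n H :=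
  lt_of_lt_of_le (Real.exp_pos _) (pE_ge hn hmn H hH ⊤ (top_edges H hH))

lemma pE_le_one {n m : ℕ} (hmn : m ≤ n) (H : SimpleGraph (Fin m)) : pE n H ≤ 1 := by
  unfold pE
  obtain ⟨p, hp⟩ := pE_set_nonempty hmn H
  refine (csInf_le ⟨0, ?_⟩ hp).trans hp.2.1
  rintro q ⟨hq, _⟩
  exact hq

lemma pE_theta {n m : ℕ} (hn : 2 ≤ n) (hmn : m ≤ n) (H : SimpleGraph (Fin m)) (hH : H ≠ ⊥)
    (F : H.Subgraph) (hF : 0 < F.edgeSet.ncard) :
    -Real.log (pE n H) / Real.log n ≤ (F.verts.ncard : ℝ) / F.edgeSet.ncard := by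
  have hLpos : 0 < Real.log n := Real.log_pos (by exact_mod_cast (by omega : 1 < n))
  rw [div_le_iff₀ hLpos]
  have h1 := Real.log_le_log (Real.exp_pos _) (pE_ge hn hmn H hH F hF)
  rw [Real.log_exp] at h1
  linarith

/-- **Upper bound on the threshold.** -/
theorem threshold_main {n m : ℕ} (hn : 2 ≤ n) (hmn : m ≤ n) (H : SimpleGraph (Fin m))
    (hH : H ≠ ⊥) (pc : ℝ) (hpc1 : pc ≤ 1)
    (hpc : gnp n pc (fun G => H.IsContained G) ≤ 1 / 2) :
    pc ≤ 66000 * pE n H
      * (max 1 (min (H.maxDegree : ℝ) (Real.log n))) ^ (min 1 (-Real.log (pE n H) / Real.log n))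
      * Real.log (2 * H.edgeSet.ncard) := by
  have hlog2 : 0.693 < Real.log 2 := by have := Real.log_two_gt_d9; linarith
  have hLpos : 0 < Real.log n := Real.log_pos (by exact_mod_cast (by omega : 1 < n))
  have hedge : 1 ≤ H.edgeSet.ncard := by
    rw [Nat.one_le_iff_ne_zero, Ne, Set.ncard_eq_zero]
    intro he
    exact hH (SimpleGraph.edgeSet_eq_empty.mp he)
  have hpEpos := pE_pos hn hmn H hH
  set b : ℝ := max 1 (min (H.maxDegree : ℝ) (Real.log n)) with hb
  have hb1 : 1 ≤ b := le_max_left _ _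
  have hb0 : 0 < b := by linarith
  have hbB : min (Real.log n) (H.maxDegree : ℝ) ≤ b := by
    rw [min_comm]; exact le_max_right _ _
  have hbL : b ≤ max 1 (Real.log n) := max_le_max le_rfl (min_le_right _ _)
  set B : ℝ := b ^ (min 1 (-Real.log (pE n H) / Real.log n)) with hBdef
  have hB0 : 0 < B := by positivity
  set l : ℕ := H.edgeSet.ncard with hl
  have hl' : (1 : ℝ) ≤ l := by exact_mod_cast hedge
  set Lg : ℝ := Real.log (2 * l) with hLg
  have hLgpos : 0 < Lg := Real.log_pos (by linarith)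
  have hl2pos : 0 < Real.log 2 := by linarith
  have hround : (Nat.log 2 l + 1 : ℝ) ≤ Lg / Real.log 2 := by
    rw [le_div_iff₀ hl2pos]
    have h1 : (2 : ℝ) ^ (Nat.log 2 l) ≤ l := by
      exact_mod_cast Nat.pow_log_le_self 2 (by omega)
    have h2 := Real.log_le_log (by positivity) h1
    rw [Real.log_pow] at h2
    rw [hLg, Real.log_mul (by norm_num) (by positivity)]
    linarith
  -- reduce to a single admissible p
  have hC : 0 < 66000 * B * Lg := by positivity
  have hkey : pc / (66000 * B * Lg) ≤ pE n H := by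
    conv_rhs => unfold pE
    apply le_csInf (pE_set_nonempty hmn H)
    rintro p ⟨hp0, hp1, hp⟩
    have hppos := pE_set_pos H hH p hp0 hp
    have hpEp : pE n H ≤ p := by
      unfold pE
      exact csInf_le ⟨0, fun q hq => hq.1⟩ ⟨hp0, hp1, hp⟩
    rw [div_le_iff₀ hC]
    have hBp : b ^ (min 1 (-Real.log p / Real.log n)) ≤ B := by
      rw [hBdef]
      apply Real.rpow_le_rpow_of_exponent_le hb1
      apply min_le_min le_rfl
      apply div_le_div_of_nonneg_right _ hLpos.le
      have := Real.log_le_log hpEpos hpEp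
      linarith
    have h1 := threshold_le' hn hmn H p hppos hp1 hp b B hb1 hbB hbL hBp pc hpc1 hpc
    have he2 : Real.exp 2 < 7.4 := by
      have h := Real.exp_one_lt_d9
      have h2 : Real.exp 2 = Real.exp 1 * Real.exp 1 := by rw [← Real.exp_add]; norm_num
      have h0 : 0 < Real.exp 1 := Real.exp_pos 1
      rw [h2]
      nlinarith
    calc pc ≤ (Nat.log 2 l + 1 : ℝ) * (32 * (192 * B * p * Real.exp 2)) := h1
      _ ≤ (Lg / Real.log 2) * (32 * (192 * B * p * 7.4)) := by
          apply mul_le_mul hround _ (by positivity) (by positivity)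
          have : 0 ≤ 192 * B * p := by positivity
          nlinarith
      _ = (45465.6 * (p * B * Lg)) / Real.log 2 := by
          field_simp; ring
      _ ≤ p * (66000 * B * Lg) := by
          rw [div_le_iff₀ hl2pos]
          have h4 : 0 ≤ p * B * Lg := by positivity
          nlinarith
  rw [div_le_iff₀ hC] at hkey
  calc pc ≤ pE n H * (66000 * B * Lg) := hkey
    _ = 66000 * pE n H * B * Lg := by ring

/-- The bound with `min (Δ, log n)` instead of `max 1 (min (Δ, log n))`, for any exponent `s ≤ 1`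
that is at least `min 1 θ`. -/
theorem threshold_exponent {n m : ℕ} (hn : 2 ≤ n) (hmn : m ≤ n) (H : SimpleGraph (Fin m))
    (hH : H ≠ ⊥) (pc : ℝ) (hpc1 : pc ≤ 1)
    (hpc : gnp n pc (fun G => H.IsContained G) ≤ 1 / 2) (s : ℝ)
    (hsθ : min 1 (-Real.log (pE n H) / Real.log n) ≤ s) (hs1 : s ≤ 1) :
    pc ≤ 100000 * pE n H
      * (min (H.maxDegree : ℝ) (Real.log n)) ^ s
      * Real.log (2 * H.edgeSet.ncard) := by
  have hlog2 : 0.693 < Real.log 2 := by have := Real.log_two_gt_d9; linarith
  have hlog2' : Real.log 2 < 0.7 := by have := Real.log_two_lt_d9; linarith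
  have hLpos : 0 < Real.log n := Real.log_pos (by exact_mod_cast (by omega : 1 < n))
  have hlogn : Real.log 2 ≤ Real.log n :=
    Real.log_le_log (by norm_num) (by exact_mod_cast hn)
  have hedge : 1 ≤ H.edgeSet.ncard := by
    rw [Nat.one_le_iff_ne_zero, Ne, Set.ncard_eq_zero]
    intro he
    exact hH (SimpleGraph.edgeSet_eq_empty.mp he)
  have hl' : (1 : ℝ) ≤ H.edgeSet.ncard := by exact_mod_cast hedge
  have hLgpos : 0 < Real.log (2 * H.edgeSet.ncard) := Real.log_pos (by linarith)
  have hdeg : 1 ≤ H.maxDegree := by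
    by_contra hcon
    have h0 : H.maxDegree = 0 := by omega
    apply hH
    ext a b
    constructor
    · intro hab
      have h1 := SimpleGraph.degree_le_maxDegree H a
      rw [h0, Nat.le_zero] at h1
      rw [← SimpleGraph.card_neighborFinset_eq_degree, Finset.card_eq_zero] at h1
      have h2 : b ∈ H.neighborFinset a := by
        rw [SimpleGraph.mem_neighborFinset]; exact hab
      rw [h1] at h2
      exact absurd h2 (Finset.notMem_empty _)
    · intro hab
      exact absurd hab (by simp)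
  have hdeg' : (1 : ℝ) ≤ H.maxDegree := by exact_mod_cast hdeg
  have hpEpos := pE_pos hn hmn H hH
  have hpE1 := pE_le_one (n := n) hmn H
  set c : ℝ := min (H.maxDegree : ℝ) (Real.log n) with hc
  have hc2 : Real.log 2 ≤ c := le_min (by linarith) hlogn
  have hcpos : 0 < c := by linarith
  have hs0 : 0 ≤ s := by
    refine le_trans ?_ hsθ
    apply le_min (by norm_num)
    apply div_nonneg _ hLpos.le
    have := Real.log_nonpos hpEpos.le hpE1
    linarith
  have hkey : (max 1 c) ^ (min 1 (-Real.log (pE n H) / Real.log n)) ≤ c ^ s * (1 / 0.693) := by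
    have h1 : max 1 c ≤ c * (1 / 0.693) := by
      apply max_le
      · rw [mul_one_div, le_div_iff₀ (by norm_num)]; linarith
      · rw [mul_one_div, le_div_iff₀ (by norm_num)]; nlinarith
    calc (max 1 c) ^ (min 1 (-Real.log (pE n H) / Real.log n)) ≤ (max 1 c) ^ s :=
          Real.rpow_le_rpow_of_exponent_le (le_max_left _ _) hsθ
      _ ≤ (c * (1 / 0.693)) ^ s :=
          Real.rpow_le_rpow (le_trans zero_le_one (le_max_left _ _)) h1 hs0
      _ = c ^ s * (1 / 0.693) ^ s := Real.mul_rpow hcpos.le (by norm_num)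
      _ ≤ c ^ s * (1 / 0.693) ^ (1 : ℝ) := by
          apply mul_le_mul_of_nonneg_left _ (by positivity)
          apply Real.rpow_le_rpow_of_exponent_le _ hs1
          norm_num
      _ = _ := by rw [Real.rpow_one]
  have hmain := threshold_main hn hmn H hH pc hpc1 hpc
  refine hmain.trans ?_
  apply mul_le_mul_of_nonneg_right _ hLgpos.le
  have hcs : 0 ≤ pE n H * c ^ s := by positivity
  calc 66000 * pE n H * (max 1 c) ^ (min 1 (-Real.log (pE n H) / Real.log n))
      ≤ 66000 * pE n H * (c ^ s * (1 / 0.693)) := by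
        apply mul_le_mul_of_nonneg_left hkey; positivity
    _ = (66000 / 0.693) * (pE n H * c ^ s) := by ring
    _ ≤ 100000 * (pE n H * c ^ s) := by
        apply mul_le_mul_of_nonneg_right _ hcs
        norm_num
    _ = _ := by ring

/-- The bound with the exponent `min 1 (log (1 / pE) / log n)`. -/
theorem threshold_theta {n m : ℕ} (hn : 2 ≤ n) (hmn : m ≤ n) (H : SimpleGraph (Fin m))
    (hH : H ≠ ⊥) (pc : ℝ) (hpc1 : pc ≤ 1)
    (hpc : gnp n pc (fun G => H.IsContained G) ≤ 1 / 2) :
    pc ≤ 100000 * pE n H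
      * (min (H.maxDegree : ℝ) (Real.log n)) ^ (min 1 (Real.log (1 / pE n H) / Real.log n))
      * Real.log (2 * H.edgeSet.ncard) := by
  apply threshold_exponent hn hmn H hH pc hpc1 hpc _ _ (min_le_left _ _)
  rw [one_div, Real.log_inv]

/-- The bound with the exponent `min 1 (v(F) / e(F))`. -/
theorem threshold_density {n m : ℕ} (hn : 2 ≤ n) (hmn : m ≤ n) (H : SimpleGraph (Fin m))
    (hH : H ≠ ⊥) (pc : ℝ) (hpc1 : pc ≤ 1)
    (hpc : gnp n pc (fun G => H.IsContained G) ≤ 1 / 2)
    (F : H.Subgraph) (hF : 0 < F.edgeSet.ncard) :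
    pc ≤ 100000 * pE n H
      * (min (H.maxDegree : ℝ) (Real.log n)) ^ (min 1 ((F.verts.ncard : ℝ) / F.edgeSet.ncard))
      * Real.log (2 * H.edgeSet.ncard) := by
  apply threshold_exponent hn hmn H hH pc hpc1 hpc _ _ (min_le_left _ _)
  exact min_le_min le_rfl (pE_theta hn hmn H hH F hF)

/-- The bound when `H` has a subgraph of density at least `loglog n / A`. -/
theorem threshold_dense {n m : ℕ} (hn : 2 ≤ n) (hmn : m ≤ n) (H : SimpleGraph (Fin m))
    (hH : H ≠ ⊥) (pc : ℝ) (hpc1 : pc ≤ 1)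
    (hpc : gnp n pc (fun G => H.IsContained G) ≤ 1 / 2)
    (F : H.Subgraph) (hF : 0 < F.edgeSet.ncard) (A : ℝ) (hA : 0 ≤ A)
    (hFA : (F.verts.ncard : ℝ) * Real.log (Real.log n) ≤ A * F.edgeSet.ncard) :
    pc ≤ 66000 * Real.exp A * pE n H * Real.log (2 * H.edgeSet.ncard) := by
  have hLpos : 0 < Real.log n := Real.log_pos (by exact_mod_cast (by omega : 1 < n))
  have hedge : 1 ≤ H.edgeSet.ncard := by
    rw [Nat.one_le_iff_ne_zero, Ne, Set.ncard_eq_zero]
    intro he
    exact hH (SimpleGraph.edgeSet_eq_empty.mp he)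
  have hl' : (1 : ℝ) ≤ H.edgeSet.ncard := by exact_mod_cast hedge
  have hLgpos : 0 < Real.log (2 * H.edgeSet.ncard) := Real.log_pos (by linarith)
  have hpEpos := pE_pos hn hmn H hH
  have hF' : (0 : ℝ) < F.edgeSet.ncard := by exact_mod_cast hF
  set b : ℝ := max 1 (min (H.maxDegree : ℝ) (Real.log n)) with hb
  have hb1 : 1 ≤ b := le_max_left _ _
  have hb0 : 0 < b := by linarith
  have hbL : b ≤ max 1 (Real.log n) := max_le_max le_rfl (min_le_right _ _)
  have hbA : b ^ (min 1 (-Real.log (pE n H) / Real.log n)) ≤ Real.exp A := by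
    have h1 : b ^ (min 1 (-Real.log (pE n H) / Real.log n))
        ≤ b ^ ((F.verts.ncard : ℝ) / F.edgeSet.ncard) := by
      apply Real.rpow_le_rpow_of_exponent_le hb1
      exact (min_le_right _ _).trans (pE_theta hn hmn H hH F hF)
    refine h1.trans ?_
    rw [Real.rpow_def_of_pos hb0]
    apply Real.exp_le_exp.mpr
    have h2 : 0 ≤ (F.verts.ncard : ℝ) / F.edgeSet.ncard := by positivity
    rcases le_total (Real.log n) 1 with hle | hge
    · have h3 : b = 1 := by
        apply le_antisymm _ hb1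
        rw [max_eq_left hle] at hbL
        exact hbL
      rw [h3, Real.log_one, zero_mul]
      exact hA
    · rw [max_eq_right hge] at hbL
      have h3 : Real.log b ≤ Real.log (Real.log n) := Real.log_le_log hb0 hbL
      calc Real.log b * ((F.verts.ncard : ℝ) / F.edgeSet.ncard)
          ≤ Real.log (Real.log n) * ((F.verts.ncard : ℝ) / F.edgeSet.ncard) :=
            mul_le_mul_of_nonneg_right h3 h2
        _ = (F.verts.ncard * Real.log (Real.log n)) / F.edgeSet.ncard := by ring
        _ ≤ A := by rw [div_le_iff₀ hF']; exact hFA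
  have hmain := threshold_main hn hmn H hH pc hpc1 hpc
  refine hmain.trans ?_
  apply mul_le_mul_of_nonneg_right _ hLgpos.le
  calc 66000 * pE n H * b ^ (min 1 (-Real.log (pE n H) / Real.log n))
      ≤ 66000 * pE n H * Real.exp A := by
        apply mul_le_mul_of_nonneg_left hbA; positivity
    _ = _ := by ring

end Pool.Agent.TH879.KK
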